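import Pool.Agent.Helper88.Ric.Stmts

/-!
MP_092777_ag, module BOR: upper triangular matrices.
-/

set_option autoImplicit false

open scoped ContDiff Manifold Topology MatrixGroups LinearAlgebra.Projectivization
open Complex Filter

noncomputable section

namespace RicP

theorem bor_T : ModularGroup.T 0 0 = 1 ∧ ModularGroup.T 0 1 = 1 ∧ ModularGroup.T 1 0 = 0 ∧
    ModularGroup.T 1 1 = 1 := by
  refine ⟨?_, ?_, ?_, ?_⟩ <;> simp [ModularGroup.T]

theorem bor_mobT (τ : ℂ) : mob ModularGroup.T τ = τ + 1 := by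
  obtain ⟨h1, h2, h3, h4⟩ := bor_T
  unfold mob
  rw [h1, h2, h3, h4]
  simp

/-- the vertical line with real part `k` -/
def bor_ln (k : ℝ) (y : ℝ) : ℂ := (k : ℂ) + (y : ℂ) * I

theorem bor_ln_im (k y : ℝ) : (bor_ln k y).im = y := by
  unfold bor_ln
  simp

theorem bor_ln_re (k y : ℝ) : (bor_ln k y).re = k := by
  unfold bor_ln
  simp

theorem bor_ln_add (k l y : ℝ) : bor_ln k y + (l : ℂ) = bor_ln (k + l) y := by
  unfold bor_ln
  push_cast
  ring

theorem bor_dec (M : ModData) (k : ℝ) (hk : |k| ≤ 1) :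
    Tendsto (fun y => M.F₁ (bor_ln k y)) atTop (𝓝 0) ∧
    Tendsto (fun y => M.F₂ (bor_ln k y)) atTop (𝓝 0) := by
  obtain ⟨C, hC⟩ := M.decay
  have h0 : Tendsto (fun y : ℝ => C * Real.exp (-y)) atTop (𝓝 0) := by
    have := (Real.tendsto_exp_neg_atTop_nhds_zero).const_mul C
    rw [mul_zero] at this
    exact this
  constructor
  · refine squeeze_zero_norm' ?_ h0
    filter_upwards [eventually_ge_atTop (1 / 2 : ℝ)] with y hy
    have h := hC (bor_ln k y) (by rw [bor_ln_im]; exact hy) (by rw [bor_ln_re]; exact hk)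
    rw [bor_ln_im] at h
    exact h.1
  · refine squeeze_zero_norm' ?_ h0
    filter_upwards [eventually_ge_atTop (1 / 2 : ℝ)] with y hy
    have h := hC (bor_ln k y) (by rw [bor_ln_im]; exact hy) (by rw [bor_ln_re]; exact hk)
    rw [bor_ln_im] at h
    exact h.2

/-- the periods of `T` vanish -/
theorem bor_VT (M : ModData) : (∀ τ : ℂ, 0 < τ.im → M.F₁ (τ + 1) = I * M.F₁ τ) ∧
    (∀ τ : ℂ, 0 < τ.im → M.F₁ (τ + 1) + M.F₂ (τ + 1) = I * M.F₂ τ) := by
  obtain ⟨h1, h2, h3, h4⟩ := bor_T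
  have p1 : ∀ τ : ℂ, 0 < τ.im → M.F₁ (τ + 1) = I * M.F₁ τ + M.V₁ ModularGroup.T := by
    intro τ hτ
    have h := M.period₁ ModularGroup.T τ hτ
    rw [h1, h3, bor_mobT, M.χ_T] at h
    simpa using h
  have p2 : ∀ τ : ℂ, 0 < τ.im → M.F₁ (τ + 1) + M.F₂ (τ + 1) = I * M.F₂ τ +
      M.V₂ ModularGroup.T := by
    intro τ hτ
    have h := M.period₂ ModularGroup.T τ hτ
    rw [h2, h4, bor_mobT, M.χ_T] at h
    simpa using h
  have a := bor_dec M (-(1 / 2)) (by norm_num [abs_le])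
  have b := bor_dec M (1 / 2) (by norm_num [abs_le])
  have hs : ∀ y : ℝ, bor_ln (-(1 / 2)) y + 1 = bor_ln (1 / 2) y := by
    intro y
    have := bor_ln_add (-(1 / 2)) 1 y
    rw [Complex.ofReal_one] at this
    rw [this]
    norm_num
  have v1 : M.V₁ ModularGroup.T = 0 := by
    have t1 : Tendsto (fun y => M.F₁ (bor_ln (1 / 2) y) - I * M.F₁ (bor_ln (-(1 / 2)) y)) atTop
        (𝓝 (0 - I * 0)) := b.1.sub (a.1.const_mul I)
    have t2 : Tendsto (fun y => M.F₁ (bor_ln (1 / 2) y) - I * M.F₁ (bor_ln (-(1 / 2)) y)) atTop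
        (𝓝 (M.V₁ ModularGroup.T)) := by
      refine tendsto_const_nhds.congr' ?_
      filter_upwards [eventually_gt_atTop (0 : ℝ)] with y hy
      have := p1 (bor_ln (-(1 / 2)) y) (by rw [bor_ln_im]; exact hy)
      rw [hs] at this
      rw [this]
      ring
    have := tendsto_nhds_unique t2 t1
    simpa using this
  have v2 : M.V₂ ModularGroup.T = 0 := by
    have t1 : Tendsto (fun y => M.F₁ (bor_ln (1 / 2) y) + M.F₂ (bor_ln (1 / 2) y) -
        I * M.F₂ (bor_ln (-(1 / 2)) y)) atTop (𝓝 (0 + 0 - I * 0)) :=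
      (b.1.add b.2).sub (a.2.const_mul I)
    have t2 : Tendsto (fun y => M.F₁ (bor_ln (1 / 2) y) + M.F₂ (bor_ln (1 / 2) y) -
        I * M.F₂ (bor_ln (-(1 / 2)) y)) atTop (𝓝 (M.V₂ ModularGroup.T)) := by
      refine tendsto_const_nhds.congr' ?_
      filter_upwards [eventually_gt_atTop (0 : ℝ)] with y hy
      have := p2 (bor_ln (-(1 / 2)) y) (by rw [bor_ln_im]; exact hy)
      rw [hs] at this
      rw [this]
      ring
    have := tendsto_nhds_unique t2 t1
    simpa using this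
  refine ⟨fun τ hτ => ?_, fun τ hτ => ?_⟩
  · rw [p1 τ hτ, v1, add_zero]
  · rw [p2 τ hτ, v2, add_zero]

/-- decay on every vertical line with integral real part -/
theorem bor_line (M : ModData) (k : ℤ) :
    Tendsto (fun y => M.F₁ (bor_ln k y)) atTop (𝓝 0) ∧
    Tendsto (fun y => M.F₂ (bor_ln k y)) atTop (𝓝 0) := by
  obtain ⟨r1, r2⟩ := bor_VT M
  have hs : ∀ (k : ℤ) (y : ℝ), bor_ln k y + 1 = bor_ln ((k + 1 : ℤ) : ℝ) y := by
    intro k y
    have := bor_ln_add k 1 y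
    rw [Complex.ofReal_one] at this
    rw [this]
    push_cast
    rfl
  induction k using Int.induction_on with
  | zero =>
    have := bor_dec M 0 (by norm_num)
    simpa using this
  | succ i ih =>
    have q1 : Tendsto (fun y => M.F₁ (bor_ln (((i : ℤ) + 1 : ℤ) : ℝ) y)) atTop (𝓝 0) := by
      have t := ih.1.const_mul I
      rw [mul_zero] at t
      refine t.congr' ?_
      filter_upwards [eventually_gt_atTop (0 : ℝ)] with y hy
      rw [← hs, r1 _ (by rw [bor_ln_im]; exact hy)]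
    refine ⟨q1, ?_⟩
    have t := (ih.2.const_mul I).sub q1
    rw [mul_zero, sub_zero] at t
    refine t.congr' ?_
    filter_upwards [eventually_gt_atTop (0 : ℝ)] with y hy
    rw [← hs, ← r2 _ (by rw [bor_ln_im]; exact hy)]
    ring
  | pred i ih =>
    have e : (-(i : ℤ) - 1) + 1 = -(i : ℤ) := by ring
    have q1 : Tendsto (fun y => M.F₁ (bor_ln ((-(i : ℤ) - 1 : ℤ) : ℝ) y)) atTop (𝓝 0) := by
      have t := ih.1.const_mul (-I)
      rw [mul_zero] at t
      refine t.congr' ?_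
      filter_upwards [eventually_gt_atTop (0 : ℝ)] with y hy
      have h := r1 (bor_ln ((-(i : ℤ) - 1 : ℤ) : ℝ) y) (by rw [bor_ln_im]; exact hy)
      rw [hs, e] at h
      rw [h, ← mul_assoc, neg_mul, I_mul_I, neg_neg, one_mul]
    refine ⟨q1, ?_⟩
    have t := (ih.1.add ih.2).const_mul (-I)
    rw [add_zero, mul_zero] at t
    refine t.congr' ?_
    filter_upwards [eventually_gt_atTop (0 : ℝ)] with y hy
    have h := r2 (bor_ln ((-(i : ℤ) - 1 : ℤ) : ℝ) y) (by rw [bor_ln_im]; exact hy)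
    rw [hs, e] at h
    rw [h, ← mul_assoc, neg_mul, I_mul_I, neg_neg, one_mul]

theorem st_BOR : ST_BOR := by
  intro M γ hγ
  have hc : γ 1 0 = 0 := hγ
  have hdet : γ 0 0 * γ 1 1 = 1 := by
    have h := γ.det_coe
    rw [Matrix.det_fin_two] at h
    have hc' : (γ : Matrix (Fin 2) (Fin 2) ℤ) 1 0 = 0 := hc
    rw [hc', mul_zero, sub_zero] at h
    exact h
  obtain ⟨s, hs, h0, h1⟩ : ∃ s : ℤ, (s = 1 ∨ s = -1) ∧ γ 0 0 = s ∧ γ 1 1 = s := by
    rcases Int.mul_eq_one_iff_eq_one_or_neg_one.1 hdet with h | h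
    · exact ⟨1, Or.inl rfl, h.1, h.2⟩
    · exact ⟨-1, Or.inr rfl, h.1, h.2⟩
  have hss : (s : ℂ) * s = 1 := by rcases hs with h | h <;> rw [h] <;> norm_num
  have hs0 : (s : ℂ) ≠ 0 := by rcases hs with h | h <;> rw [h] <;> norm_num
  have hj : ∀ τ : ℂ, jj γ τ = (s : ℂ) := by
    intro τ
    unfold jj
    rw [hc, h1]
    simp
  have hm : ∀ τ : ℂ, mob γ τ = τ + ((s * γ 0 1 : ℤ) : ℂ) := by
    intro τ
    have hj' := hj τ
    unfold jj at hj'
    unfold mob
    rw [hj', h0, div_eq_iff hs0]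
    push_cast
    linear_combination (-((γ 0 1 : ℤ) : ℂ)) * hss
  have hline : ∀ y : ℝ, mob γ (bor_ln ((0 : ℤ) : ℝ) y) = bor_ln ((s * γ 0 1 : ℤ) : ℝ) y := by
    intro y
    rw [hm]
    have := bor_ln_add ((0 : ℤ) : ℝ) ((s * γ 0 1 : ℤ) : ℝ) y
    rw [Complex.ofReal_intCast] at this
    rw [this]
    simp
  have a := bor_line M 0
  have b := bor_line M (s * γ 0 1)
  have hV1 : M.V₁ γ = 0 := by
    have t1 := (b.1.mul_const (s : ℂ)).sub (a.1.const_mul ((M.χ γ : ℂˣ) : ℂ))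
    rw [zero_mul, mul_zero, sub_zero] at t1
    have t2 : Tendsto (fun y => M.F₁ (bor_ln ((s * γ 0 1 : ℤ) : ℝ) y) * (s : ℂ) -
        ((M.χ γ : ℂˣ) : ℂ) * M.F₁ (bor_ln ((0 : ℤ) : ℝ) y)) atTop (𝓝 (M.V₁ γ)) := by
      refine tendsto_const_nhds.congr' ?_
      filter_upwards [eventually_gt_atTop (0 : ℝ)] with y hy
      have h := M.period₁ γ (bor_ln ((0 : ℤ) : ℝ) y) (by rw [bor_ln_im]; exact hy)
      rw [hline, h0, hc, Int.cast_zero, mul_zero, add_zero] at h
      rw [h]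
      ring
    exact tendsto_nhds_unique t2 t1
  have hV2 : M.V₂ γ = 0 := by
    have t1 := ((b.1.mul_const ((γ 0 1 : ℤ) : ℂ)).add (b.2.mul_const (s : ℂ))).sub
      (a.2.const_mul ((M.χ γ : ℂˣ) : ℂ))
    rw [zero_mul, zero_mul, mul_zero, sub_zero, add_zero] at t1
    have t2 : Tendsto (fun y => M.F₁ (bor_ln ((s * γ 0 1 : ℤ) : ℝ) y) * ((γ 0 1 : ℤ) : ℂ) +
        M.F₂ (bor_ln ((s * γ 0 1 : ℤ) : ℝ) y) * (s : ℂ) -
        ((M.χ γ : ℂˣ) : ℂ) * M.F₂ (bor_ln ((0 : ℤ) : ℝ) y)) atTop (𝓝 (M.V₂ γ)) := by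
      refine tendsto_const_nhds.congr' ?_
      filter_upwards [eventually_gt_atTop (0 : ℝ)] with y hy
      have h := M.period₂ γ (bor_ln ((0 : ℤ) : ℝ) y) (by rw [bor_ln_im]; exact hy)
      rw [hline, h1] at h
      rw [h]
      ring
    exact tendsto_nhds_unique t2 t1
  refine ⟨s, hs, h0, h1, fun τ => ⟨hj τ, hm τ⟩, hV1, hV2, ?_, ?_⟩
  · intro N hN h
    have hmap : Matrix.SpecialLinearGroup.map (Int.castRingHom (ZMod N)) γ = 1 :=
      congrArg Prod.fst h
    have e00 : ((γ 0 0 : ℤ) : ZMod N) = 1 := by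
      have := congrArg (fun g : SL(2, ZMod N) => g 0 0) hmap
      simpa using this
    have e01 : ((γ 0 1 : ℤ) : ZMod N) = 0 := by
      have := congrArg (fun g : SL(2, ZMod N) => g 0 1) hmap
      simpa using this
    refine ⟨?_, (ZMod.intCast_zmod_eq_zero_iff_dvd _ N).1 e01⟩
    rcases hs with hs | hs
    · exact hs
    · exfalso
      rw [h0, hs] at e00
      have h2 : ((2 : ℤ) : ZMod N) = 0 := by
        push_cast at e00 ⊢
        linear_combination -e00
      have h3 := (ZMod.intCast_zmod_eq_zero_iff_dvd 2 N).1 h2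
      have h4 := Int.le_of_dvd (by norm_num) h3
      omega
  · intro N hN hs1 hb
    have hγT : γ = ModularGroup.T ^ (γ 0 1) := by
      ext i j
      rw [ModularGroup.coe_T_zpow]
      fin_cases i <;> fin_cases j
      · simpa [hs1] using h0
      · simp
      · simpa using hc
      · simpa [hs1] using h1
    have hχ : M.χ γ = 1 := by
      obtain ⟨d, hd⟩ : (4 : ℤ) ∣ γ 0 1 := by
        refine dvd_trans ?_ hb
        exact_mod_cast hN
      have h4 : M.χ γ = M.χ (ModularGroup.T ^ (4 * d)) := by rw [← hd, ← hγT]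
      rw [h4, map_zpow, zpow_mul]
      have h5 : M.χ ModularGroup.T ^ (4 : ℤ) = 1 := by
        exact_mod_cast M.χ_pow ModularGroup.T
      rw [h5, one_zpow]
    have hmap : Matrix.SpecialLinearGroup.map (Int.castRingHom (ZMod N)) γ = 1 := by
      have e01 : ((γ 0 1 : ℤ) : ZMod N) = 0 := (ZMod.intCast_zmod_eq_zero_iff_dvd _ N).2 hb
      ext i j
      rw [Matrix.SpecialLinearGroup.map_apply_coe, RingHom.mapMatrix_apply, Matrix.map_apply]
      fin_cases i <;> fin_cases j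
      · show ((γ 0 0 : ℤ) : ZMod N) = 1
        rw [h0, hs1, Int.cast_one]
      · show ((γ 0 1 : ℤ) : ZMod N) = 0
        exact e01
      · show ((γ 1 0 : ℤ) : ZMod N) = 0
        rw [hc, Int.cast_zero]
      · show ((γ 1 1 : ℤ) : ZMod N) = 1
        rw [h1, hs1, Int.cast_one]
    exact Prod.ext hmap hχ

end RicP
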