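import Pool.Agent.Helper88.Ric.Stmts

/-!
MP_092777_ag, module RET: local biholomorphisms realising the relation and preserving the metric.
-/

set_option autoImplicit false

open scoped ContDiff Manifold Topology MatrixGroups LinearAlgebra.Projectivization
open Complex

noncomputable section

namespace RicP

/-! ### Local biholomorphisms preserving Levi forms -/

/-- there is a local biholomorphism from `x` to `y`, realising the relation `S`, between open
subsets of `U` and `V`, and preserving the Levi forms of `φ`, `ψ` -/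
def ret_LB (φ ψ : E → ℝ) (S : E → E → Prop) (U V : Set E) (x y : E) : Prop :=
  ∃ h : OpenPartialHomeomorph E E, x ∈ h.source ∧ h x = y ∧ h.source ⊆ U ∧
      h.target ⊆ V ∧ ContDiffOn ℂ ω h h.source ∧ ContDiffOn ℂ ω h.symm h.target ∧
      (∀ x' ∈ h.source, S x' (h x')) ∧
      (∀ x' ∈ h.source, ∀ v w : E, levi φ x' v w =
        levi ψ (h x') (fderiv ℂ h x' v) (fderiv ℂ h x' w))

theorem ret_mono {φ ψ : E → ℝ} {S S' : E → E → Prop} {U V U' V' : Set E} {x y : E}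
    (H : ret_LB φ ψ S U V x y) (hS : ∀ a ∈ U, ∀ b ∈ V, S a b → S' a b) (hU : U ⊆ U')
    (hV : V ⊆ V') : ret_LB φ ψ S' U' V' x y := by
  obtain ⟨h, hx, hy, h3, h4, h1, h2, hR, hL⟩ := H
  exact ⟨h, hx, hy, h3.trans hU, h4.trans hV, h1, h2,
    fun x' hx' => hS _ (h3 hx') _ (h4 (h.map_source hx')) (hR x' hx'), hL⟩

theorem ret_symm {φ ψ : E → ℝ} {S : E → E → Prop} {U V : Set E} {x y : E}
    (H : ret_LB φ ψ S U V x y) : ret_LB ψ φ (fun a b => S b a) V U y x := by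
  obtain ⟨h, hx, hy, hU, hV, h1, h2, hS, hL⟩ := H
  refine ⟨h.symm, ?_, ?_, hV, hU, h2, h1, ?_, ?_⟩
  · rw [← hy]; exact h.map_source hx
  · rw [← hy]; exact h.left_inv hx
  · intro y' hy'
    have hm := h.map_target hy'
    have h3 := hS (h.symm y') hm
    rw [h.right_inv hy'] at h3
    exact h3
  · intro y' hy' v w
    have hy'' : y' ∈ h.target := hy'
    have hm : h.symm y' ∈ h.source := h.map_target hy''
    have hd2 : DifferentiableAt ℂ h.symm y' :=
      (h2.contDiffAt (h.open_target.mem_nhds hy'')).differentiableAt (by simp)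
    have hd1 : DifferentiableAt ℂ h (h.symm y') :=
      (h1.contDiffAt (h.open_source.mem_nhds hm)).differentiableAt (by simp)
    have hid : (fderiv ℂ h (h.symm y')).comp (fderiv ℂ h.symm y') =
        ContinuousLinearMap.id ℂ E := by
      rw [← fderiv_comp y' hd1 hd2]
      have he : (h ∘ h.symm) =ᶠ[𝓝 y'] id :=
        Filter.eventually_of_mem (h.open_target.mem_nhds hy'') (fun z hz => h.right_inv hz)
      rw [he.fderiv_eq, fderiv_id]
    have key : ∀ v, fderiv ℂ h (h.symm y') (fderiv ℂ h.symm y' v) = v := by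
      intro v
      exact congrArg (fun L : E →L[ℂ] E => L v) hid
    have h4 := hL (h.symm y') hm (fderiv ℂ h.symm y' v) (fderiv ℂ h.symm y' w)
    rw [key, key, h.right_inv hy''] at h4
    exact h4.symm

theorem ret_trans {φ ψ χ : E → ℝ} {S S' S'' : E → E → Prop} {U V V' W : Set E} {x y z : E}
    (H : ret_LB φ ψ S U V x y) (H' : ret_LB ψ χ S' V' W y z)
    (hT : ∀ a ∈ U, ∀ b, ∀ c ∈ W, S a b → S' b c → S'' a c) : ret_LB φ χ S'' U W x z := by
  obtain ⟨h, hx, hy, hU, hV, h1, h2, hS, hL⟩ := H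
  obtain ⟨g, gx, gy, gU, gV, g1, g2, gS, gL⟩ := H'
  have hsrc : (h.trans g).source = h.source ∩ h ⁻¹' g.source := h.trans_source g
  have htgt : ∀ y' ∈ (h.trans g).target, y' ∈ g.target ∧ g.symm y' ∈ h.target := by
    intro y' hy'
    rw [OpenPartialHomeomorph.trans_target] at hy'
    exact hy'
  refine ⟨h.trans g, ?_, ?_, ?_, ?_, ?_, ?_, ?_, ?_⟩
  · rw [hsrc]
    refine ⟨hx, ?_⟩
    show h x ∈ g.source
    rw [hy]; exact gx
  · show g (h x) = z
    rw [hy, gy]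
  · rw [hsrc]
    exact fun a ha => hU ha.1
  · exact fun a ha => gV (htgt a ha).1
  · rw [hsrc]
    exact g1.comp (h1.mono Set.inter_subset_left) (fun a ha => ha.2)
  · show ContDiffOn ℂ ω (h.symm ∘ g.symm) (h.trans g).target
    exact h2.comp (g2.mono (fun a ha => (htgt a ha).1)) (fun a ha => (htgt a ha).2)
  · intro x' hx'
    rw [hsrc] at hx'
    exact hT x' (hU hx'.1) (h x') (g (h x')) (gV (g.map_source hx'.2)) (hS x' hx'.1)
      (gS (h x') hx'.2)
  · intro x' hx' v w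
    rw [hsrc] at hx'
    have hd1 : DifferentiableAt ℂ h x' :=
      (h1.contDiffAt (h.open_source.mem_nhds hx'.1)).differentiableAt (by simp)
    have hd2 : DifferentiableAt ℂ g (h x') :=
      (g1.contDiffAt (g.open_source.mem_nhds hx'.2)).differentiableAt (by simp)
    have hc : fderiv ℂ (h.trans g) x' = (fderiv ℂ g (h x')).comp (fderiv ℂ h x') :=
      fderiv_comp x' hd2 hd1
    rw [hL x' hx'.1, gL (h x') hx'.2, hc]
    rfl

theorem ret_restr {φ ψ : E → ℝ} {S : E → E → Prop} {U V U' V' : Set E} {x y : E}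
    (H : ret_LB φ ψ S U V x y) (hU' : IsOpen U') (hV' : IsOpen V') (hx : x ∈ U') (hy : y ∈ V') :
    ret_LB φ ψ S U' V' x y := by
  obtain ⟨h, hx1, hy1, hU, hV, h1, h2, hS, hL⟩ := H
  have ho : IsOpen (U' ∩ (h.source ∩ h ⁻¹' V')) := hU'.inter (h.isOpen_inter_preimage hV')
  have hsrc : (h.restrOpen _ ho).source = h.source ∩ (U' ∩ (h.source ∩ h ⁻¹' V')) :=
    h.restrOpen_source _ ho
  refine ⟨h.restrOpen _ ho, ?_, hy1, ?_, ?_, ?_, ?_, ?_, ?_⟩
  · rw [hsrc]
    refine ⟨hx1, hx, hx1, ?_⟩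
    show h x ∈ V'
    rw [hy1]; exact hy
  · rw [hsrc]
    exact fun a ha => ha.2.1
  · intro a ha
    have h3 := (h.restrOpen _ ho).map_target ha
    rw [hsrc] at h3
    have h4 : h (h.symm a) ∈ V' := h3.2.2.2
    have h5 : a ∈ h.target := ha.1
    rw [h.right_inv h5] at h4
    exact h4
  · rw [hsrc]
    exact h1.mono Set.inter_subset_left
  · exact h2.mono (fun a ha => ha.1)
  · intro x' hx'
    rw [hsrc] at hx'
    exact hS x' hx'.1
  · intro x' hx'
    rw [hsrc] at hx'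
    exact hL x' hx'.1

/-- Levi forms agree if the potentials differ by a pluriharmonic function -/
theorem ret_of (hLV : ST_LV) (φ ψ u : E → ℝ) (h : OpenPartialHomeomorph E E)
    (h1 : ContDiffOn ℂ ω h h.source)
    (hu : ∀ x' ∈ h.source, ContDiffAt ℝ 2 u x' ∧ ∀ v w, levi u x' v w = 0)
    (hψ : ∀ x' ∈ h.source, ContDiffAt ℝ 2 ψ (h x'))
    (he : ∀ x' ∈ h.source, φ x' = ψ (h x') + u x') :
    ∀ x' ∈ h.source, ∀ v w : E, levi φ x' v w =
      levi ψ (h x') (fderiv ℂ h x' v) (fderiv ℂ h x' w) := by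
  intro x' hx' v w
  have hn : h.source ∈ 𝓝 x' := h.open_source.mem_nhds hx'
  have hh : ContDiffAt ℂ 2 h x' := (h1.contDiffAt hn).of_le (by simp)
  have e1 : φ =ᶠ[𝓝 x'] fun y => ψ (h y) + u y := Filter.eventually_of_mem hn he
  have c1 : ContDiffAt ℝ 2 (fun y => ψ (h y)) x' :=
    (hψ x' hx').comp x' (hh.restrict_scalars ℝ)
  rw [hLV.2.2.2.2 φ _ x' v w e1, hLV.2.2.2.1 (fun y => ψ (h y)) u x' v w c1 (hu x' hx').1,
    (hu x' hx').2 v w, add_zero, hLV.1 ψ h x' v w (hψ x' hx') hh]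

/-- real parts of holomorphic functions -/
theorem ret_re (hLV : ST_LV) (f : E → ℂ) (x : E) (hf : ContDiffAt ℂ 2 f x) :
    ContDiffAt ℝ 2 (fun y => (f y).re) x ∧ ∀ v w, levi (fun y => (f y).re) x v w = 0 :=
  ⟨Complex.reCLM.contDiff.contDiffAt.comp x (hf.restrict_scalars ℝ),
    fun v w => hLV.2.1 f x v w hf⟩

theorem ret_re_im (a : ℝ) (z : ℂ) : ((a : ℂ) * (-I * z)).re = a * z.im := by
  rw [Complex.re_ofReal_mul, neg_mul, Complex.neg_re, Complex.I_mul_re, neg_neg]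

theorem ret_two_le : (2 : WithTop ℕ∞) ≤ ∞ :=
  WithTop.coe_le_coe.2 (le_top : (2 : ℕ∞) ≤ ⊤)

/-! ### Numbers -/

theorem ret_exp : Real.exp (9 / 10) < 5 / 2 := by
  have h1 : Real.exp 1 < 2.72 := lt_trans Real.exp_one_lt_d9 (by norm_num)
  have h2 : Real.exp (9 / 10) ^ 10 = Real.exp 1 ^ 9 := by
    rw [← Real.exp_nat_mul, ← Real.exp_nat_mul]
    norm_num
  have h3 : Real.exp 1 ^ 9 < (5 / 2 : ℝ) ^ 10 := by
    calc Real.exp 1 ^ 9 ≤ (2.72 : ℝ) ^ 9 :=
          pow_le_pow_left₀ (Real.exp_pos _).le h1.le 9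
      _ < (5 / 2 : ℝ) ^ 10 := by norm_num
  exact lt_of_pow_lt_pow_left₀ 10 (by norm_num) (h2 ▸ h3)

/-- on `UD` the variable `L` is large -/
theorem ret_L {r : ℝ} (h0 : 0 < r) (hr : r < 2 / 5) : 9 / 5 < -2 * Real.log r := by
  have h1 : Real.log r < -(9 / 10) := by
    rw [Real.log_lt_iff_lt_exp h0]
    refine lt_trans hr ?_
    rw [Real.exp_neg]
    have h2 := ret_exp
    have h3 := Real.exp_pos (9 / 10)
    rw [lt_inv_comm₀ (by norm_num) h3]
    norm_num
    linarith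
  linarith

/-! ### Node coordinates -/

theorem ret_D0 {N : ℕ} (hN : 1 ≤ N) {k : ZMod N} {p x₀ : E} (h : D0 k p x₀) :
    p.1 ≠ 0 ∧ p.2 ≠ 0 ∧ p.1 * p.2 ≠ 0 ∧ ‖p.1 * p.2‖ < 1 ∧
    4 * Real.pi * x₀.1.im / N = -2 * Real.log ‖p.1 * p.2‖ ∧
    4 * Real.pi * x₀.2.im = -2 * Real.log ‖p.2‖ + k.val * (4 * Real.pi * x₀.1.im / N) := by
  obtain ⟨h0, h1, h2⟩ := h
  have hN0 : (0 : ℝ) < N := by exact_mod_cast hN
  have hne : p.1 * p.2 ≠ 0 := by rw [← h1]; exact exp_ne_zero _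
  have hp1 : p.1 ≠ 0 := left_ne_zero_of_mul hne
  have hp2 : p.2 ≠ 0 := right_ne_zero_of_mul hne
  have e1 : ‖p.1 * p.2‖ = Real.exp (-(2 * Real.pi * x₀.1.im / N)) := by
    rw [← h1, Complex.norm_exp]
    congr 1
    have : (2 * Real.pi * I * x₀.1 / N : ℂ) = ((2 * Real.pi / N : ℝ) : ℂ) * (I * x₀.1) := by
      push_cast; ring
    rw [this, Complex.re_ofReal_mul, Complex.I_mul_re]
    ring
  have e2 : ‖p.2 * (p.1 * p.2) ^ k.val‖ = Real.exp (-(2 * Real.pi * x₀.2.im)) := by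
    rw [← h2, Complex.norm_exp]
    congr 1
    have : (2 * Real.pi * I * x₀.2 : ℂ) = ((2 * Real.pi : ℝ) : ℂ) * (I * x₀.2) := by
      push_cast; ring
    rw [this, Complex.re_ofReal_mul, Complex.I_mul_re]
    ring
  have l1 : Real.log ‖p.1 * p.2‖ = -(2 * Real.pi * x₀.1.im / N) := by
    rw [e1, Real.log_exp]
  have l2 : Real.log ‖p.2‖ + k.val * Real.log ‖p.1 * p.2‖ = -(2 * Real.pi * x₀.2.im) := by
    rw [← Real.log_exp (-(2 * Real.pi * x₀.2.im)), ← e2, norm_mul p.2 _, norm_pow,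
      Real.log_mul (norm_ne_zero_iff.2 hp2) (pow_ne_zero _ (norm_ne_zero_iff.2 hne)),
      Real.log_pow]
  refine ⟨hp1, hp2, hne, ?_, ?_, ?_⟩
  · rw [e1, Real.exp_lt_one_iff]
    have : 0 < 2 * Real.pi * x₀.1.im / N := by positivity
    linarith
  · rw [l1]; ring
  · have : 4 * Real.pi * x₀.1.im / N = -2 * Real.log ‖p.1 * p.2‖ := by rw [l1]; ring
    rw [this]
    linarith

theorem ret_isOpenUH (N : ℕ) : IsOpen (UH N) := by
  unfold UH
  have h1 : Continuous (fun x : E => x.1.im) := Complex.continuous_im.comp continuous_fst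
  have h2 : Continuous (fun x : E => 4 * Real.pi * x.1.im / N) :=
    (continuous_const.mul h1).div_const _
  exact (isOpen_lt continuous_const h1).inter (isOpen_lt h2 continuous_const)

theorem ret_isOpenUD : IsOpen UD := by
  unfold UD
  have h1 : Continuous (fun p : E => ‖p.1‖) := continuous_norm.comp continuous_fst
  have h2 : Continuous (fun p : E => ‖p.2‖) := continuous_norm.comp continuous_snd
  have h3 : Continuous (fun p : E => ‖p.1 * p.2‖) :=
    continuous_norm.comp (continuous_fst.mul continuous_snd)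
  exact (isOpen_lt h1 continuous_const).inter
    ((isOpen_lt h2 continuous_const).inter (isOpen_lt h3 continuous_const))

theorem ret_isOpenH : IsOpen {x : E | 0 < x.1.im} :=
  isOpen_lt continuous_const (Complex.continuous_im.comp continuous_fst)

theorem ret_isOpenD : IsOpen {p : E | ‖p.1 * p.2‖ < 1} :=
  isOpen_lt (continuous_norm.comp (continuous_fst.mul continuous_snd)) continuous_const

/-- the node coordinates preserve the metric -/
theorem ret_node (hDL : ST_DL) (hLV : ST_LV) (hFPHI : ST_FPHI) (hSMH : ST_SMH) (N : ℕ)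
    (hN : 1 ≤ N) (ε : ℝ) (hε : 0 < ε) (hε2 : ε ≤ 9 / 10) (k : ZMod N) (p x₀ : E) (hp : p ∈ UD)
    (h : D0 k p x₀) :
    ret_LB potD (potH N ε) (fun a b => D0 k a b) UD {x : E | 0 < x.1.im} p x₀ := by
  obtain ⟨_, _, hne, hlt, _, _⟩ := ret_D0 hN h
  obtain ⟨h₂, m1, m2, m3, m4, m5⟩ := (hDL N hN k p hne hlt).2 x₀ h
  have ho : IsOpen UD := ret_isOpenUD
  obtain ⟨c₀, c₁, c₂, hc⟩ := hFPHI k.val
  have hsrc : (h₂.restrOpen _ ho).source = h₂.source ∩ UD := h₂.restrOpen_source _ ho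
  have hcoe : ((h₂.restrOpen _ ho : OpenPartialHomeomorph E E) : E → E) = h₂ := rfl
  have ha1 : ContDiffOn ℂ ω (h₂.restrOpen _ ho) (h₂.restrOpen _ ho).source := by
    rw [hsrc]
    exact m4.mono Set.inter_subset_left
  refine ⟨h₂.restrOpen _ ho, ?_, m2, ?_, ?_, ha1, ?_, ?_, ?_⟩
  · rw [hsrc]; exact ⟨m1, hp⟩
  · rw [hsrc]; exact Set.inter_subset_right
  · intro a ha
    have h3 := (h₂.restrOpen _ ho).map_target ha
    rw [hsrc] at h3
    have h4 : D0 k (h₂.symm a) (h₂ (h₂.symm a)) := (m3 _ h3.1).2.2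
    have h5 : a ∈ h₂.target := ha.1
    rw [h₂.right_inv h5] at h4
    exact h4.1
  · exact m5.mono (fun a ha => ha.1)
  · intro x' hx'
    rw [hsrc] at hx'
    exact (m3 _ hx'.1).2.2
  · refine ret_of hLV potD (potH N ε)
      (fun y => ((c₀ : ℂ) + (c₁ : ℂ) * (((4 * Real.pi / N : ℝ) : ℂ) * (-I * (h₂ y).1)) +
        (c₂ : ℂ) * (((4 * Real.pi : ℝ) : ℂ) * (-I * (h₂ y).2))).re)
      (h₂.restrOpen _ ho) ha1 ?_ ?_ ?_
    · intro x' hx'
      rw [hsrc] at hx'
      apply ret_re hLV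
      have hh : ContDiffAt ℂ 2 h₂ x' :=
        (m4.contDiffAt (h₂.open_source.mem_nhds hx'.1)).of_le (by simp)
      have hh1 : ContDiffAt ℂ 2 (fun y => (h₂ y).1) x' := contDiffAt_fst.comp x' hh
      have hh2 : ContDiffAt ℂ 2 (fun y => (h₂ y).2) x' := contDiffAt_snd.comp x' hh
      exact (contDiffAt_const.add (contDiffAt_const.mul (contDiffAt_const.mul
        (contDiffAt_const.mul hh1)))).add (contDiffAt_const.mul (contDiffAt_const.mul
        (contDiffAt_const.mul hh2)))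
    · intro x' hx'
      rw [hsrc] at hx'
      have h4 : 0 < (h₂ x').1.im := (m3 _ hx'.1).2.2.1
      exact ((hSMH N ε hN hε).contDiffAt (ret_isOpenH.mem_nhds h4)).of_le ret_two_le
    · intro x' hx'
      rw [hsrc] at hx'
      rw [hcoe]
      obtain ⟨n1, n2, n3, n4, n5, n6⟩ := ret_D0 hN (m3 _ hx'.1).2.2
      have hr : 9 / 5 < -2 * Real.log ‖x'.1 * x'.2‖ :=
        ret_L (norm_pos_iff.2 n3) hx'.2.2.2
      have hL : 9 / 5 < 4 * Real.pi * (h₂ x').1.im / N := by rw [n5]; exact hr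
      have h6 := hc x' n1 n2 n4 (4 * Real.pi * (h₂ x').1.im / N) (4 * Real.pi * (h₂ x').2.im)
        n5 n6
      rw [h6]
      have hst : Real.smoothTransition (4 * Real.pi * (h₂ x').1.im / N / ε - 1) = 1 := by
        apply Real.smoothTransition.one_of_one_le
        rw [le_sub_iff_add_le, le_div_iff₀ hε]
        linarith
      unfold potH Feps
      rw [hst]
      have e1 : ((c₀ : ℂ) + (c₁ : ℂ) * (((4 * Real.pi / N : ℝ) : ℂ) * (-I * (h₂ x').1)) +
        (c₂ : ℂ) * (((4 * Real.pi : ℝ) : ℂ) * (-I * (h₂ x').2))).re =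
          c₀ + c₁ * (4 * Real.pi * (h₂ x').1.im / N) + c₂ * (4 * Real.pi * (h₂ x').2.im) := by
        rw [Complex.add_re, Complex.add_re, Complex.ofReal_re, Complex.re_ofReal_mul c₁,
          Complex.re_ofReal_mul c₂, ret_re_im, ret_re_im]
        ring
      simp only [e1]
      ring

/-! ### The open part -/

/-- upper triangular matrices preserve the metric -/
theorem ret_bor (hGBI : ST_GBI) (hBOR : ST_BOR) (hLV : ST_LV) (hFPER : ST_FPER)
    (hSMH : ST_SMH) (M : ModData) (N : ℕ) (hN : 1 ≤ N) (ε : ℝ) (hε : 0 < ε)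
    (S : E → E → Prop) (γ : SL(2, ℤ)) (m n : ℤ) (hγ : γ ∈ borel)
    (hrel : ∀ y : E, 0 < y.1.im → S y (hGam γ (m : ℝ) (n : ℝ) y)) (x : E) (hx : 0 < x.1.im) :
    ret_LB (potH N ε) (potH N ε) S {x : E | 0 < x.1.im} {x : E | 0 < x.1.im} x
      (hGam γ (m : ℝ) (n : ℝ) x) := by
  obtain ⟨h, h1, h2, h3, h4, h5⟩ := hGBI γ (m : ℝ) (n : ℝ)
  obtain ⟨s, hs, _, _, hj, _⟩ := hBOR M γ hγ
  have hNr : (0 : ℝ) < N := by exact_mod_cast hN
  have hsrc : ∀ y : E, y ∈ h.source ↔ 0 < y.1.im := by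
    intro y; rw [h1]; exact Iff.rfl
  have himg : ∀ y : E, (hGam γ (m : ℝ) (n : ℝ) y).1.im = y.1.im := by
    intro y
    show (mob γ y.1).im = y.1.im
    rw [(hj y.1).2, Complex.add_im, Complex.intCast_im, add_zero]
  have himg2 : ∀ y : E, (hGam γ (m : ℝ) (n : ℝ) y).2.im = s * (y.2.im + m * y.1.im) := by
    intro y
    show ((y.2 + ((m : ℝ) : ℂ) * y.1 + ((n : ℝ) : ℂ)) / jj γ y.1).im = s * (y.2.im + m * y.1.im)
    rw [(hj y.1).1]
    have h6 : (y.2 + ((m : ℝ) : ℂ) * y.1 + ((n : ℝ) : ℂ)).im = y.2.im + m * y.1.im := by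
      rw [Complex.add_im, Complex.add_im, Complex.im_ofReal_mul, Complex.ofReal_im, add_zero]
    rcases hs with hs | hs
    · rw [hs, Int.cast_one, div_one, h6, Int.cast_one, one_mul]
    · rw [hs, Int.cast_neg, Int.cast_one, div_neg, div_one, Complex.neg_im, h6, Int.cast_neg,
        Int.cast_one, neg_one_mul]
  refine ⟨h, ?_, h3 x, ?_, ?_, h4, h5, ?_, ?_⟩
  · exact (hsrc x).2 hx
  · rw [h1]
  · rw [h2]
  · intro y hy
    rw [h3 y]
    exact hrel y ((hsrc y).1 hy)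
  · refine ret_of hLV (potH N ε) (potH N ε)
      (fun y => (((-28 * (2 * ((m * N : ℤ) : ℝ)) * (4 * Real.pi) : ℝ) : ℂ) * (-I * y.2) +
        ((-28 * ((m * N : ℤ) : ℝ) ^ 2 * (4 * Real.pi / N) : ℝ) : ℂ) * (-I * y.1)).re)
      h h4 ?_ ?_ ?_
    · intro y hy
      apply ret_re hLV
      exact (contDiffAt_const.mul (contDiffAt_const.mul contDiffAt_snd)).add
        (contDiffAt_const.mul (contDiffAt_const.mul contDiffAt_fst))
    · intro y hy
      have h7 : 0 < (h y).1.im := by rw [h3 y, himg]; exact (hsrc y).1 hy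
      exact ((hSMH N ε hN hε).contDiffAt (ret_isOpenH.mem_nhds h7)).of_le ret_two_le
    · intro y hy
      have hy0 : 0 < y.1.im := (hsrc y).1 hy
      have hL0 : 0 < 4 * Real.pi * y.1.im / N := by positivity
      rw [h3 y]
      unfold potH
      rw [himg, himg2]
      have hf := hFPER ε (4 * Real.pi * y.1.im / N) (4 * Real.pi * y.2.im) hε hL0
      have hf1 := hf.1 (m * N)
      have hT : 4 * Real.pi * (y.2.im + m * y.1.im) = 4 * Real.pi * y.2.im +
          ((m * N : ℤ) : ℝ) * (4 * Real.pi * y.1.im / N) := by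
        push_cast
        field_simp
      have hs2 : Feps ε (4 * Real.pi * y.1.im / N, 4 * Real.pi * (s * (y.2.im + m * y.1.im))) =
          Feps ε (4 * Real.pi * y.1.im / N, 4 * Real.pi * (y.2.im + m * y.1.im)) := by
        rcases hs with hs | hs
        · rw [hs, Int.cast_one, one_mul]
        · rw [hs]
          have h8 : 4 * Real.pi * (((-1 : ℤ) : ℝ) * (y.2.im + m * y.1.im)) =
              -(4 * Real.pi * (y.2.im + m * y.1.im)) := by push_cast; ring
          rw [h8]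
          exact (hFPER ε _ _ hε hL0).2
      rw [hs2, hT, hf1]
      simp only [Complex.add_re, ret_re_im]
      field_simp
      ring

/-- the other matrices preserve the metric at small height -/
theorem ret_nb (hGBI : ST_GBI) (hHT : ST_HT) (hLV : ST_LV) (hUINV : ST_UINV)
    (N : ℕ) (hN : 1 ≤ N) (ε : ℝ) (hε : 0 < ε) (hNε : 5 * Real.pi / N ≤ ε)
    (S : E → E → Prop) (γ : SL(2, ℤ)) (a b : ℝ) (hγ : γ ∉ borel)
    (hrel : ∀ y : E, 0 < y.1.im → S y (hGam γ a b y)) (x : E) (hx : x ∈ UH N)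
    (hy : hGam γ a b x ∈ UH N) :
    ret_LB (potH N ε) (potH N ε) S (UH N) (UH N) x (hGam γ a b x) := by
  obtain ⟨h, h1, h2, h3, h4, h5⟩ := hGBI γ a b
  have hNr : (0 : ℝ) < N := by exact_mod_cast hN
  have hcoe : (h : E → E) = hGam γ a b := funext h3
  have hsrc : ∀ y : E, y ∈ h.source ↔ 0 < y.1.im := by
    intro y; rw [h1]; exact Iff.rfl
  have ho : IsOpen (UH N ∩ (h.source ∩ h ⁻¹' UH N)) :=
    (ret_isOpenUH N).inter (h.isOpen_inter_preimage (ret_isOpenUH N))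
  have hs' : (h.restrOpen _ ho).source = h.source ∩ (UH N ∩ (h.source ∩ h ⁻¹' UH N)) :=
    h.restrOpen_source _ ho
  -- heights
  have hht : ∀ y : E, y ∈ UH N → hGam γ a b y ∈ UH N →
      y.1.im < 5 / 4 ∧ (hGam γ a b y).1.im < 5 / 4 := by
    intro y hy1 hy2
    have hy0 : 0 < y.1.im := lt_trans (by norm_num) hy1.1
    have h6 : ¬ (1 < y.1.im * (mob γ y.1).im) := fun hc => hγ ((hHT γ y.1 hy0).2.2 hc)
    have h7 : 4 / 5 < y.1.im := hy1.1
    have h8 : 4 / 5 < (mob γ y.1).im := hy2.1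
    constructor
    · nlinarith
    · show (mob γ y.1).im < 5 / 4
      nlinarith
  have hFU : ∀ y : E, y.1.im < 5 / 4 → potH N ε =ᶠ[𝓝 y]
      (fun y : E => FU (4 * Real.pi * y.1.im / N, 4 * Real.pi * y.2.im)) := by
    intro y hy
    have hopen : IsOpen {z : E | z.1.im < 5 / 4} :=
      isOpen_lt (Complex.continuous_im.comp continuous_fst) continuous_const
    refine Filter.eventually_of_mem (hopen.mem_nhds hy) (fun z hz => ?_)
    have hz' : z.1.im < 5 / 4 := hz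
    unfold potH Feps
    have h6 : 4 * Real.pi * z.1.im / N ≤ ε := by
      refine le_trans ?_ hNε
      apply div_le_div_of_nonneg_right _ hNr.le
      nlinarith [Real.pi_pos]
    have h7 : Real.smoothTransition (4 * Real.pi * z.1.im / N / ε - 1) = 0 := by
      apply Real.smoothTransition.zero_of_nonpos
      rw [sub_nonpos, div_le_one hε]
      exact h6
    simp only [h7, zero_mul, add_zero]
  refine ⟨h.restrOpen _ ho, ?_, h3 x, ?_, ?_, ?_, ?_, ?_, ?_⟩
  · rw [hs']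
    have hxs : x ∈ h.source := (hsrc x).2 (lt_trans (by norm_num) hx.1)
    refine ⟨hxs, hx, hxs, ?_⟩
    show h x ∈ UH N
    rw [h3]; exact hy
  · rw [hs']
    exact fun a ha => ha.2.1
  · intro c hc
    have h6 := (h.restrOpen _ ho).map_target hc
    rw [hs'] at h6
    have h7 : h (h.symm c) ∈ UH N := h6.2.2.2
    have h8 : c ∈ h.target := hc.1
    rw [h.right_inv h8] at h7
    exact h7
  · rw [hs']
    exact h4.mono Set.inter_subset_left
  · exact h5.mono (fun a ha => ha.1)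
  · intro y hy
    rw [hs'] at hy
    show S y (h y)
    rw [h3 y]
    exact hrel y ((hsrc y).1 hy.1)
  · intro y hy v w
    rw [hs'] at hy
    show levi (potH N ε) y v w = levi (potH N ε) (h y) (fderiv ℂ h y v) (fderiv ℂ h y w)
    have hy2 : hGam γ a b y ∈ UH N := by
      have := hy.2.2.2
      rw [Set.mem_preimage, h3] at this
      exact this
    have h6 := hht y hy.2.1 hy2
    rw [hcoe, hLV.2.2.2.2 _ _ y v w (hFU y h6.1), hLV.2.2.2.2 _ _ _ _ _ (hFU _ h6.2)]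
    exact hUINV N hN γ a b y v w ((hsrc y).1 hy.1)

/-! ### The node charts -/

/-- the change of node charts `(X, Y) ↦ (1/Y, X Y²)` -/
def ret_sh : OpenPartialHomeomorph E E where
  toFun := fun p => (p.2⁻¹, p.1 * p.2 ^ 2)
  invFun := fun p => (p.2 * p.1 ^ 2, p.1⁻¹)
  source := {p | p.2 ≠ 0 ∧ ‖p.1 * p.2‖ < 1}
  target := {p | p.1 ≠ 0 ∧ ‖p.1 * p.2‖ < 1}
  map_source' := by
    rintro p ⟨h1, h2⟩
    refine ⟨inv_ne_zero h1, ?_⟩
    have e : p.2⁻¹ * (p.1 * p.2 ^ 2) = p.1 * p.2 := by field_simp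
    show ‖p.2⁻¹ * (p.1 * p.2 ^ 2)‖ < 1
    rw [e]; exact h2
  map_target' := by
    rintro p ⟨h1, h2⟩
    refine ⟨inv_ne_zero h1, ?_⟩
    have e : p.2 * p.1 ^ 2 * p.1⁻¹ = p.1 * p.2 := by field_simp
    show ‖p.2 * p.1 ^ 2 * p.1⁻¹‖ < 1
    rw [e]; exact h2
  left_inv' := by
    rintro p ⟨h1, h2⟩
    refine Prod.ext ?_ ?_
    · show p.1 * p.2 ^ 2 * (p.2⁻¹) ^ 2 = p.1
      field_simp
    · show (p.2⁻¹)⁻¹ = p.2
      rw [inv_inv]
  right_inv' := by
    rintro p ⟨h1, h2⟩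
    refine Prod.ext ?_ ?_
    · show (p.1⁻¹)⁻¹ = p.1
      rw [inv_inv]
    · show p.2 * p.1 ^ 2 * (p.1⁻¹) ^ 2 = p.2
      field_simp
  open_source := (isOpen_ne_fun continuous_snd continuous_const).inter ret_isOpenD
  open_target := (isOpen_ne_fun continuous_fst continuous_const).inter ret_isOpenD
  continuousOn_toFun := by
    refine ContinuousOn.prodMk ?_ ?_
    · exact continuousOn_snd.inv₀ (fun p hp => hp.1)
    · exact continuousOn_fst.mul (continuousOn_snd.pow 2)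
  continuousOn_invFun := by
    refine ContinuousOn.prodMk ?_ ?_
    · exact continuousOn_snd.mul (continuousOn_fst.pow 2)
    · exact continuousOn_fst.inv₀ (fun p hp => hp.1)

theorem ret_shift (hLV : ST_LV) (hPHISH : ST_PHISH) (hSMD : ST_SMD) (p p' : E) (hp : p ∈ UD)
    (hp' : p' ∈ UD) (h1 : p'.1 * p.2 = 1) (h2 : p'.2 = p.1 * p.2 ^ 2) :
    ret_LB potD potD (fun a b => b.1 * a.2 = 1 ∧ b.2 = a.1 * a.2 ^ 2) UD UD p p' := by
  have hp2 : p.2 ≠ 0 := right_ne_zero_of_mul (by rw [h1]; exact one_ne_zero)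
  have hlt : ∀ q ∈ UD, ‖q.1 * q.2‖ < 1 := fun q hq => lt_trans hq.2.2 (by norm_num)
  have hsc : ContDiffOn ℂ ω ret_sh ret_sh.source := by
    show ContDiffOn ℂ ω (fun p : E => (p.2⁻¹, p.1 * p.2 ^ 2)) {p | p.2 ≠ 0 ∧ ‖p.1 * p.2‖ < 1}
    refine ContDiffOn.prodMk ?_ ?_
    · exact contDiffOn_snd.inv (fun p hp => hp.1)
    · exact contDiffOn_fst.mul (contDiffOn_snd.pow 2)
  have htc : ContDiffOn ℂ ω ret_sh.symm ret_sh.target := by
    show ContDiffOn ℂ ω (fun p : E => (p.2 * p.1 ^ 2, p.1⁻¹)) {p | p.1 ≠ 0 ∧ ‖p.1 * p.2‖ < 1}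
    refine ContDiffOn.prodMk ?_ ?_
    · exact contDiffOn_snd.mul (contDiffOn_fst.pow 2)
    · exact contDiffOn_fst.inv (fun p hp => hp.1)
  have H : ret_LB potD potD (fun a b => b.1 * a.2 = 1 ∧ b.2 = a.1 * a.2 ^ 2)
      Set.univ Set.univ p p' := by
    refine ⟨ret_sh, ⟨hp2, hlt p hp⟩, ?_, Set.subset_univ _, Set.subset_univ _, hsc, htc, ?_, ?_⟩
    · refine Prod.ext ?_ ?_
      · show p.2⁻¹ = p'.1
        exact (eq_inv_of_mul_eq_one_left h1).symm
      · exact h2.symm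
    · intro x hx
      refine ⟨?_, rfl⟩
      show x.2⁻¹ * x.2 = 1
      exact inv_mul_cancel₀ hx.1
    · refine ret_of hLV potD potD (fun y => Real.log ‖y.2 ^ 112‖) ret_sh hsc ?_ ?_ ?_
      · intro x hx
        have hf : ContDiffAt ℂ 2 (fun y : E => y.2 ^ 112) x := contDiffAt_snd.pow 112
        have hne : (fun y : E => y.2 ^ 112) x ≠ 0 := pow_ne_zero _ hx.1
        refine ⟨?_, fun v w => hLV.2.2.1 (fun y : E => y.2 ^ 112) x v w hf hne⟩
        exact ((hf.restrict_scalars ℝ).norm ℝ hne).log (norm_ne_zero_iff.2 hne)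
      · intro x hx
        have h3 : ret_sh x ∈ {p : E | ‖p.1 * p.2‖ < 1} := (ret_sh.map_source hx).2
        exact (hSMD.contDiffAt (ret_isOpenD.mem_nhds h3)).of_le ret_two_le
      · intro x hx
        have h3 := hPHISH x hx.1 hx.2
        show potD x = potD (x.2⁻¹, x.1 * x.2 ^ 2) + Real.log ‖x.2 ^ 112‖
        rw [h3, norm_pow, Real.log_pow]
        push_cast
        ring
  exact ret_restr H ret_isOpenUD ret_isOpenUD hp hp'

/-! ### Assembly -/

/-- from the open part to a node chart -/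
theorem ret_HD (hGET : ST_GET) (hGBI : ST_GBI) (hDL : ST_DL) (hHT : ST_HT) (hBOR : ST_BOR)
    (hLV : ST_LV) (hFPER : ST_FPER) (hFPHI : ST_FPHI) (hSMH : ST_SMH) (M : ModData) (N : ℕ)
    (hN : 1 ≤ N) (ε t : ℝ) (hε : 0 < ε) (hε2 : ε ≤ 9 / 10) (hNε : 5 * Real.pi / N ≤ ε)
    (q : QN M N) (c : Cusp M N) (k : ZMod N) (x p : E) (hx : x ∈ UH N) (hp : p ∈ UD)
    (hR : ∃ x₀, D0 k p x₀ ∧ GR M t q (cout M c) x x₀) :
    ret_LB (potH N ε) potD (fun a b => ∃ x₀, D0 k b x₀ ∧ GR M t q (cout M c) a x₀)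
      (UH N) UD x p := by
  obtain ⟨x₀, hD, hG⟩ := hR
  have hNr : (0 : ℝ) < N := by exact_mod_cast hN
  have hx0 : 0 < x.1.im := lt_trans (by norm_num) hx.1
  obtain ⟨γ, a, b, hx₀, hrel, hbor⟩ := hGET M N t q (cout M c) x x₀ hx0 hG
  obtain ⟨n1, n2, n3, n4, n5, n6⟩ := ret_D0 hN hD
  have hL : 9 / 5 < 4 * Real.pi * x₀.1.im / N := by
    rw [n5]
    exact ret_L (norm_pos_iff.2 n3) hp.2.2
  have hγ : γ ∈ borel := by
    apply (hHT γ x.1 hx0).2.2
    have h1 : (mob γ x.1).im = x₀.1.im := by rw [hx₀]; rfl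
    rw [h1]
    have h2 : 5 * Real.pi ≤ 9 / 10 * N := by
      rw [div_le_iff₀ hNr] at hNε
      exact hNε.trans (mul_le_mul_of_nonneg_right hε2 hNr.le)
    rw [lt_div_iff₀ hNr] at hL
    have h3 : 4 / 5 < x.1.im := hx.1
    have h4 : 5 / 2 < x₀.1.im := by
      have h5 : (5 / 2) * (4 * Real.pi) < x₀.1.im * (4 * Real.pi) := by nlinarith
      exact lt_of_mul_lt_mul_right h5 (by positivity)
    nlinarith
  obtain ⟨m, n, hm, hn⟩ := hbor hγ
  subst hm hn
  have H1 := ret_bor hGBI hBOR hLV hFPER hSMH M N hN ε hε (GR M t q (cout M c)) γ m n hγ hrel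
    x hx0
  rw [← hx₀] at H1
  have H2 := ret_symm (ret_node hDL hLV hFPHI hSMH N hN ε hε hε2 k p x₀ hp hD)
  have H3 : ret_LB (potH N ε) potD (fun a b => ∃ x₀, D0 k b x₀ ∧ GR M t q (cout M c) a x₀)
      {x : E | 0 < x.1.im} UD x p :=
    ret_trans H1 H2 (fun a _ b c' _ h1 h2 => ⟨b, h2, h1⟩)
  exact ret_restr H3 (ret_isOpenUH N) ret_isOpenUD hx hp

/-- Module RET. -/
theorem st_RET (hGET : ST_GET) (hGBI : ST_GBI) (hDL : ST_DL) (hHT : ST_HT) (hBOR : ST_BOR)
    (hLV : ST_LV) (hUINV : ST_UINV) (hFPER : ST_FPER) (hFPHI : ST_FPHI) (hPHISH : ST_PHISH)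
    (hSMH : ST_SMH) (hSMD : ST_SMD) : ST_RET := by
  intro M N hNOK ε t hε hε2 hNε i j x hx y hy hR
  have hN : 1 ≤ N := le_trans (by norm_num) hNOK.2
  match i, j, hx, hy, hR with
  | Sum.inl q, Sum.inl q', hx, hy, hR =>
    have hx' : x ∈ UH N := hx
    have hy' : y ∈ UH N := hy
    have hR' : GR M t q q' x y := hR
    have hx0 : 0 < x.1.im := lt_trans (by norm_num) hx'.1
    obtain ⟨γ, a, b, hxy, hrel, hbor⟩ := hGET M N t q q' x y hx0 hR'
    have H : ret_LB (potH N ε) (potH N ε) (GR M t q q') (UH N) (UH N) x y := by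
      by_cases hγ : γ ∈ borel
      · obtain ⟨m, n, hm, hn⟩ := hbor hγ
        subst hm hn
        have H1 := ret_bor hGBI hBOR hLV hFPER hSMH M N hN ε hε (GR M t q q') γ m n hγ hrel
          x hx0
        rw [← hxy] at H1
        exact ret_restr H1 (ret_isOpenUH N) (ret_isOpenUH N) hx' hy'
      · rw [hxy] at hy' ⊢
        exact ret_nb hGBI hHT hLV hUINV N hN ε hε hNε (GR M t q q') γ a b hγ hrel x hx' hy'
    exact H
  | Sum.inl q, Sum.inr (c, k), hx, hy, hR =>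
    have H := ret_HD hGET hGBI hDL hHT hBOR hLV hFPER hFPHI hSMH M N hN ε t hε hε2 hNε q c k x y
      hx hy hR
    exact H
  | Sum.inr (c, k), Sum.inl q, hx, hy, hR =>
    have H := ret_symm (ret_HD hGET hGBI hDL hHT hBOR hLV hFPER hFPHI hSMH M N hN ε t hε hε2 hNε
      q c k y x hy hx hR)
    exact H
  | Sum.inr (c, k), Sum.inr (c', k'), hx, hy, hR =>
    have hx' : x ∈ UD := hx
    have hy' : y ∈ UD := hy
    have hR' : c = c' ∧ RDD k k' x y := hR
    obtain ⟨hc, hR'⟩ := hR'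
    subst hc
    have H : ret_LB potD potD (fun a b => c = c ∧ RDD k k' a b) UD UD x y := by
      rcases hR' with ⟨h1, h2⟩ | ⟨h1, h2, h3⟩ | ⟨h1, h2, h3⟩
      · subst h1 h2
        refine ⟨OpenPartialHomeomorph.ofSet UD ret_isOpenUD, hx', rfl, subset_rfl, subset_rfl,
          contDiffOn_id, contDiffOn_id, fun a ha => ⟨rfl, Or.inl ⟨rfl, rfl⟩⟩, ?_⟩
        intro a ha v w
        have hid : fderiv ℂ (OpenPartialHomeomorph.ofSet UD ret_isOpenUD) a =
            ContinuousLinearMap.id ℂ E := fderiv_id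
        rw [hid]
        rfl
      · exact ret_mono (ret_shift hLV hPHISH hSMD x y hx' hy' h2 h3)
          (fun a _ b _ h => ⟨rfl, Or.inr (Or.inl ⟨h1, h.1, h.2⟩)⟩) subset_rfl subset_rfl
      · have h4 : x.2 = y.1 * y.2 ^ 2 := by
          rw [h3]
          calc x.2 = x.2 * (x.1 * y.2) ^ 2 := by rw [h2]; ring
            _ = x.1 ^ 2 * x.2 * y.2 ^ 2 := by ring
        refine ret_mono (ret_symm (ret_shift hLV hPHISH hSMD y x hy' hx' h2 h4))
          (fun a _ b _ h => ⟨rfl, Or.inr (Or.inr ⟨h1, h.1, ?_⟩)⟩) subset_rfl subset_rfl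
        -- `a.1 * b.2 = 1`, `a.2 = b.1 * b.2 ^ 2`
        have h5 : a.1 * b.2 = 1 := h.1
        have h6 : a.2 = b.1 * b.2 ^ 2 := h.2
        calc b.1 = b.1 * (a.1 * b.2) ^ 2 := by rw [h5]; ring
          _ = a.1 ^ 2 * (b.1 * b.2 ^ 2) := by ring
          _ = a.1 ^ 2 * a.2 := by rw [← h6]
    exact H

end RicP
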